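import Mathlib

open MeasureTheory Measure Metric Set Filter Topology
open scoped RealInnerProductSpace ENNReal NNReal

namespace Pool.Agent.Results.MP_7f2f72_gt.Klamkin

/-- Upper bound for the length of a chain. -/
lemma chain_upper {E : Type*} [MetricSpace E] [MeasurableSpace E] [BorelSpace E] (s : Set ℝ)
    (Ψ : ℝ → E) (n : ℝ → ℝ) (A B : ℝ)
    (h : ∀ a ∈ s, ∀ b ∈ s, dist (Ψ a) (Ψ b) ≤ |n a - n b|) (hn : ∀ a ∈ s, n a ∈ Icc A B) :
    μH[1] (Ψ '' s) ≤ ENNReal.ofReal (B - A) := by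
  classical
  rcases s.eq_empty_or_nonempty with rfl | hs
  · simp
  set g := Function.invFunOn n s with hg
  have hg1 : ∀ a ∈ s, g (n a) ∈ s ∧ n (g (n a)) = n a := fun a ha =>
    ⟨Function.invFunOn_mem ⟨a, ha, rfl⟩, Function.invFunOn_eq ⟨a, ha, rfl⟩⟩
  have himg : Ψ '' s = (Ψ ∘ g) '' (n '' s) := by
    rw [← image_comp]
    refine image_congr fun a ha => ?_
    obtain ⟨h1, h2⟩ := hg1 a ha
    have h3 := h a ha _ h1
    rw [h2, sub_self, abs_zero] at h3
    exact dist_le_zero.1 h3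
  have hlip : LipschitzOnWith 1 (Ψ ∘ g) (n '' s) := by
    refine LipschitzOnWith.of_dist_le_mul ?_
    rintro _ ⟨a, ha, rfl⟩ _ ⟨b, hb, rfl⟩
    obtain ⟨h1, h2⟩ := hg1 a ha
    obtain ⟨h3, h4⟩ := hg1 b hb
    have h5 := h _ h1 _ h3
    rw [h2, h4] at h5
    simpa [Real.dist_eq] using h5
  rw [himg]
  have h1 := hlip.hausdorffMeasure_image_le (d := 1) zero_le_one
  rw [hausdorffMeasure_real] at h1
  refine h1.trans ?_
  simp only [ENNReal.coe_one, ENNReal.one_rpow, one_mul]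
  calc volume (n '' s) ≤ volume (Icc A B) := measure_mono (by rintro _ ⟨a, ha, rfl⟩; exact hn a ha)
    _ = ENNReal.ofReal (B - A) := Real.volume_Icc

/-- Lower bound for the length of an arc by the length of its chord. -/
lemma arc_lower {E : Type*} [NormedAddCommGroup E] [InnerProductSpace ℝ E] [MeasurableSpace E]
    [BorelSpace E] (Φ : ℝ → E) (t : ℝ) (ht : 0 < t) (hc : ContinuousOn Φ (Icc 0 t)) :
    ENNReal.ofReal (dist (Φ t) (Φ 0)) ≤ μH[1] (Φ '' Ioo 0 t) := by
  by_cases h0 : Φ t = Φ 0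
  · rw [h0]; simp
  have hpos : 0 < ‖Φ t - Φ 0‖ := norm_pos_iff.2 (sub_ne_zero.2 h0)
  set w : E := (‖Φ t - Φ 0‖⁻¹) • (Φ t - Φ 0) with hw
  have hwn : ‖w‖ = 1 := by
    rw [hw, norm_smul, norm_inv, norm_norm, inv_mul_cancel₀ hpos.ne']
  set φ : E → ℝ := fun x => ⟪w, x⟫ with hφ
  have hlip : LipschitzWith 1 φ := by
    refine LipschitzWith.of_dist_le_mul fun x y => ?_
    rw [Real.dist_eq, hφ]
    simp only
    rw [← inner_sub_right, dist_eq_norm]
    have := abs_real_inner_le_norm w (x - y)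
    rw [hwn] at this
    simpa using this
  have hcont : ContinuousOn (φ ∘ Φ) (Icc 0 t) := hlip.continuous.comp_continuousOn hc
  have hivt := intermediate_value_Ioo ht.le hcont
  have hdiff : (φ ∘ Φ) t - (φ ∘ Φ) 0 = dist (Φ t) (Φ 0) := by
    simp only [Function.comp, hφ]
    rw [← inner_sub_right, hw, inner_smul_left, real_inner_self_eq_norm_sq, dist_eq_norm]
    simp only [conj_trivial]
    field_simp
  calc ENNReal.ofReal (dist (Φ t) (Φ 0)) = volume (Ioo ((φ ∘ Φ) 0) ((φ ∘ Φ) t)) := by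
        rw [Real.volume_Ioo, hdiff]
    _ ≤ volume ((φ ∘ Φ) '' Ioo 0 t) := measure_mono hivt
    _ = μH[1] (φ '' (Φ '' Ioo 0 t)) := by rw [hausdorffMeasure_real, image_comp]
    _ ≤ μH[1] (Φ '' Ioo 0 t) := by
        have := hlip.hausdorffMeasure_image_le (d := 1) zero_le_one (Φ '' Ioo 0 t)
        simpa using this

/-- The one-dimensional comparison. -/
lemma real_comparison (G γ : ℝ → ℝ) (ρ q : ℝ) (hρ : 0 < ρ) (hq : ρ < q)
    (hG : ConvexOn ℝ univ G) (hGc : Continuous G) (hγc : Continuous γ)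
    (hGpos : ∀ t, 0 < G t) (hγpos : ∀ t, 0 < γ t)
    (hG0 : G 0 = 1 / ρ) (hγ0 : γ 0 = 1 / q) (hmono : ∀ t, 0 ≤ t → G 0 ≤ G t)
    (hcond : ∀ t, 0 < t → 1 / γ t - 1 / G t ≤ q - ρ) :
    ∃ D : ℝ, 0 ≤ D ∧ (∀ t, 0 ≤ t → G 0 * (1 + D * t) ≤ G t) ∧
      ∀ᶠ t in 𝓝[>] (0 : ℝ),
        (((t - D) / G t + D / G 0) + (1 / G 0 - (1 + D * t) / G t)) / Real.sqrt (1 + D ^ 2) <
          Real.sqrt ((t / γ t) ^ 2 + (q - 1 / γ t) ^ 2) := by
  set s : ℝ → ℝ := fun t => (G t - G 0) / t with hs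
  have hsmono : MonotoneOn s (Ioi 0) := by
    intro x hx y hy hxy
    have := hG.secant_mono (a := 0) (x := x) (y := y) trivial trivial trivial
      (ne_of_gt hx) (ne_of_gt hy) hxy
    simpa [hs] using this
  have hs0 : ∀ t, 0 < t → 0 ≤ s t := fun t ht =>
    div_nonneg (sub_nonneg.2 (hmono t ht.le)) ht.le
  have hbdd : BddBelow (s '' Ioi 0) := ⟨0, by rintro _ ⟨t, ht, rfl⟩; exact hs0 t ht⟩
  set s0 : ℝ := sInf (s '' Ioi 0) with hs0def
  have hs0nn : 0 ≤ s0 := by
    apply le_csInf (⟨s 1, ⟨1, by simp, rfl⟩⟩ : (s '' Ioi 0).Nonempty)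
    rintro _ ⟨t, ht, rfl⟩; exact hs0 t ht
  have hlim : Tendsto s (𝓝[>] 0) (𝓝 s0) := hsmono.tendsto_nhdsGT hbdd
  have hs0le : ∀ t, 0 < t → s0 ≤ s t := fun t ht => csInf_le hbdd ⟨t, ht, rfl⟩
  have hG0pos := hGpos 0
  set D : ℝ := s0 * ρ with hD
  have hD0 : 0 ≤ D := mul_nonneg hs0nn hρ.le
  have hGD : G 0 * D = s0 := by rw [hG0, hD]; field_simp
  have e1 : s0 / G 0 = D := by rw [hG0, hD]; field_simp
  have e2 : s0 / (G 0 * G 0) = D * ρ := by rw [hG0, hD]; field_simp
  clear_value D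
  refine ⟨D, hD0, ?_, ?_⟩
  · intro t ht
    rcases ht.eq_or_lt with rfl | ht
    · simp
    · have h1 := hs0le t ht
      rw [hs] at h1
      simp only at h1
      rw [le_div_iff₀ ht] at h1
      have : G 0 * (1 + D * t) = G 0 + (G 0 * D) * t := by ring
      rw [this, hGD]; linarith
  · -- limits
    have hGt : Tendsto G (𝓝[>] 0) (𝓝 (G 0)) := (hGc.tendsto 0).mono_left nhdsWithin_le_nhds
    have hγt : Tendsto γ (𝓝[>] 0) (𝓝 (γ 0)) := (hγc.tendsto 0).mono_left nhdsWithin_le_nhds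
    have hR : 0 < Real.sqrt (1 + D ^ 2) := Real.sqrt_pos.2 (by positivity)
    -- upper function divided by t
    have hU : Tendsto (fun t => (1 / G t + D * (s t / (G 0 * G t)) +
        (s t / G 0 - D) / G t) / Real.sqrt (1 + D ^ 2)) (𝓝[>] 0)
        (𝓝 ((1 / G 0 + D * (s0 / (G 0 * G 0)) + (s0 / G 0 - D) / G 0) /
          Real.sqrt (1 + D ^ 2))) := by
      refine Tendsto.div_const ?_ _
      refine Tendsto.add (Tendsto.add ?_ ?_) ?_
      · exact tendsto_const_nhds.div hGt hG0pos.ne'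
      · exact (hlim.div (tendsto_const_nhds.mul hGt) (by positivity)).const_mul D
      · exact ((hlim.div_const _).sub_const _).div hGt hG0pos.ne'
    have hL : Tendsto (fun t => Real.sqrt ((1 / γ t) ^ 2 + (s t / (G 0 * G t)) ^ 2)) (𝓝[>] 0)
        (𝓝 (Real.sqrt ((1 / γ 0) ^ 2 + (s0 / (G 0 * G 0)) ^ 2))) := by
      refine Tendsto.sqrt ?_
      refine Tendsto.add ?_ ?_
      · exact (tendsto_const_nhds.div hγt (hγpos 0).ne').pow 2
      · exact (hlim.div (tendsto_const_nhds.mul hGt) (by positivity)).pow 2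
    have hlt : (1 / G 0 + D * (s0 / (G 0 * G 0)) + (s0 / G 0 - D) / G 0) /
          Real.sqrt (1 + D ^ 2) < Real.sqrt ((1 / γ 0) ^ 2 + (s0 / (G 0 * G 0)) ^ 2) := by
      rw [e1, e2, hG0, hγ0]
      simp only [one_div_one_div, sub_self, zero_div, add_zero]
      have e3 : (ρ + D * (D * ρ)) / Real.sqrt (1 + D ^ 2) = ρ * Real.sqrt (1 + D ^ 2) := by
        rw [div_eq_iff hR.ne']
        have : Real.sqrt (1 + D ^ 2) * Real.sqrt (1 + D ^ 2) = 1 + D ^ 2 :=
          Real.mul_self_sqrt (by positivity)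
        rw [mul_assoc, this]; ring
      rw [e3]
      apply Real.lt_sqrt_of_sq_lt
      rw [mul_pow, Real.sq_sqrt (by positivity)]
      nlinarith
    have hev := hU.eventually_lt hL hlt
    filter_upwards [hev, self_mem_nhdsWithin] with t ht ht0
    have ht0 : 0 < t := ht0
    have hGt0 := hGpos t
    have hγt0 := hγpos t
    -- express in terms of t
    have hst : s t * t = G t - G 0 := by rw [hs]; field_simp
    have hA : 1 / G 0 - 1 / G t = t * (s t / (G 0 * G t)) := by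
      have h1 : t * (s t / (G 0 * G t)) = (s t * t) / (G 0 * G t) := by ring
      rw [h1, hst]
      field_simp
    have hUeq : (((t - D) / G t + D / G 0) + (1 / G 0 - (1 + D * t) / G t)) =
        t * (1 / G t + D * (s t / (G 0 * G t)) + (s t / G 0 - D) / G t) := by
      have h1 : ((t - D) / G t + D / G 0) = t / G t + D * (1 / G 0 - 1 / G t) := by ring
      have h2 : (1 / G 0 - (1 + D * t) / G t) = (1 / G 0 - 1 / G t) - D * t / G t := by ring
      rw [h1, h2, hA]
      field_simp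
    have hcond' : 1 / G 0 - 1 / G t ≤ q - 1 / γ t := by
      have h1 := hcond t ht0
      rw [hG0]
      simp only [one_div_one_div]
      linarith
    have hA0 : 0 ≤ 1 / G 0 - 1 / G t := by
      rw [hA]
      have := hs0 t ht0
      positivity
    calc (((t - D) / G t + D / G 0) + (1 / G 0 - (1 + D * t) / G t)) / Real.sqrt (1 + D ^ 2)
        = t * ((1 / G t + D * (s t / (G 0 * G t)) +
        (s t / G 0 - D) / G t) / Real.sqrt (1 + D ^ 2)) := by rw [hUeq]; ring
      _ < t * Real.sqrt ((1 / γ t) ^ 2 + (s t / (G 0 * G t)) ^ 2) :=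
          mul_lt_mul_of_pos_left ht ht0
      _ = Real.sqrt ((t / γ t) ^ 2 + (1 / G 0 - 1 / G t) ^ 2) := by
          rw [hA, ← Real.sqrt_sq ht0.le, ← Real.sqrt_mul (by positivity), Real.sqrt_sq ht0.le]
          congr 1
          ring
      _ ≤ Real.sqrt ((t / γ t) ^ 2 + (q - 1 / γ t) ^ 2) := by
          apply Real.sqrt_le_sqrt
          have := pow_le_pow_left₀ hA0 hcond' 2
          linarith

/-- The Euclidean plane. -/
abbrev Plane : Type := EuclideanSpace ℝ (Fin 2)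

/-- open sector between the directions `e0` and `e0 + t e1` -/
def sector (e0 e1 : Plane) (t : ℝ) : Set Plane := {x | 0 < ⟪e1, x⟫ ∧ ⟪e1, x⟫ < t * ⟪e0, x⟫}

lemma gauge_pos' {K : Set Plane} (hK : IsCompact K) (h0 : K ∈ 𝓝 (0 : Plane)) {x : Plane}
    (hx : x ≠ 0) : 0 < gauge K x :=
  (gauge_pos (absorbent_nhds_zero h0) ((NormedSpace.isVonNBounded_iff ℝ).2 hK.isBounded)).2 hx

lemma frame_ne {e0 e1 : Plane} (h00 : ⟪e0, e0⟫ = (1 : ℝ)) (h01 : ⟪e0, e1⟫ = (0 : ℝ)) (t : ℝ) :
    e0 + t • e1 ≠ 0 := by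
  intro h
  have : ⟪e0, e0 + t • e1⟫ = (1 : ℝ) := by
    rw [inner_add_right, inner_smul_right, h00, h01]; ring
  rw [h, inner_zero_right] at this
  norm_num at this

lemma norm_frame {e0 e1 : Plane} (h00 : ⟪e0, e0⟫ = (1 : ℝ)) (h11 : ⟪e1, e1⟫ = (1 : ℝ))
    (h01 : ⟪e0, e1⟫ = (0 : ℝ)) (u v : ℝ) : ‖u • e0 + v • e1‖ ^ 2 = u ^ 2 + v ^ 2 := by
  rw [← real_inner_self_eq_norm_sq]
  simp only [inner_add_left, inner_add_right, inner_smul_left, inner_smul_right, h00, h11, h01,
    real_inner_comm e0 e1, conj_trivial]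
  ring

/-- The main geometric comparison. -/
lemma geo (K K' : Set Plane) (hK : IsCompact K) (hK' : IsCompact K') (hc : Convex ℝ K)
    (hc' : Convex ℝ K') (h0 : K ∈ 𝓝 (0 : Plane)) (h0' : K' ∈ 𝓝 (0 : Plane)) (e0 e1 : Plane)
    (h00 : ⟪e0, e0⟫ = (1 : ℝ)) (h11 : ⟪e1, e1⟫ = (1 : ℝ)) (h01 : ⟪e0, e1⟫ = (0 : ℝ))
    (hsp : ∀ x : Plane, x = (⟪e0, x⟫ : ℝ) • e0 + (⟪e1, x⟫ : ℝ) • e1)
    (q ρ κ : ℝ) (hρ : 0 < ρ) (hq : ρ < q) (hgq : gauge K e0 = 1 / q) (hgρ : gauge K' e0 = 1 / ρ)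
    (hκ : 0 ≤ κ) (hsup : ∀ x ∈ K', (⟪e0, x⟫ : ℝ) + κ * ⟪e1, x⟫ ≤ ρ)
    (hrad : ∀ x : Plane, ‖x‖ = 1 → 1 / gauge K x - 1 / gauge K' x ≤ q - ρ) :
    ∃ t, 0 < t ∧ μH[1] (frontier K' ∩ sector e0 e1 t) < μH[1] (frontier K ∩ sector e0 e1 t) := by
  have hq0 : 0 < q := hρ.trans hq
  set γ : ℝ → ℝ := fun t => gauge K (e0 + t • e1) with hγ
  set G : ℝ → ℝ := fun t => gauge K' (e0 + t • e1) with hG
  have hne := frame_ne h00 h01
  have hGpos : ∀ t, 0 < G t := fun t => gauge_pos' hK' h0' (hne t)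
  have hγpos : ∀ t, 0 < γ t := fun t => gauge_pos' hK h0 (hne t)
  have hline : Continuous fun t : ℝ => e0 + t • e1 := by fun_prop
  have hGc : Continuous G := (continuous_gauge hc' h0').comp hline
  have hγc : Continuous γ := (continuous_gauge hc h0).comp hline
  have hGconv : ConvexOn ℝ univ G := by
    refine ⟨convex_univ, fun x _ y _ a b ha hb hab => ?_⟩
    simp only [hG, smul_eq_mul]
    have h1 : e0 + (a * x + b * y) • e1 = a • (e0 + x • e1) + b • (e0 + y • e1) := by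
      have : e0 = (a + b) • e0 := by rw [hab, one_smul]
      conv_lhs => rw [this]
      module
    rw [h1]
    refine (gauge_add_le hc' (absorbent_nhds_zero h0') _ _).trans ?_
    rw [gauge_smul_of_nonneg ha, gauge_smul_of_nonneg hb]
    simp [smul_eq_mul]
  have hG0 : G 0 = 1 / ρ := by simp only [hG, zero_smul, add_zero, hgρ]
  have hγ0 : γ 0 = 1 / q := by simp only [hγ, zero_smul, add_zero, hgq]
  -- boundary points
  have hfr' : ∀ t, (1 / G t) • (e0 + t • e1) ∈ frontier K' := by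
    intro t
    rw [← gauge_eq_one_iff_mem_frontier hc' h0', gauge_smul_of_nonneg (by
      have := hGpos t; positivity)]
    have := (hGpos t).ne'
    simp only [hG, smul_eq_mul] at this ⊢
    field_simp
  have hfr : ∀ t, (1 / γ t) • (e0 + t • e1) ∈ frontier K := by
    intro t
    rw [← gauge_eq_one_iff_mem_frontier hc h0, gauge_smul_of_nonneg (by
      have := hγpos t; positivity)]
    have := (hγpos t).ne'
    simp only [hγ, smul_eq_mul] at this ⊢
    field_simp
  have hin0 : ∀ (c t : ℝ), (⟪e0, c • (e0 + t • e1)⟫ : ℝ) = c := by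
    intro c t
    rw [inner_smul_right, inner_add_right, inner_smul_right, h00, h01]; ring
  have hin1 : ∀ (c t : ℝ), (⟪e1, c • (e0 + t • e1)⟫ : ℝ) = c * t := by
    intro c t
    rw [inner_smul_right, inner_add_right, inner_smul_right, real_inner_comm, h11, h01]; ring
  have hmono0 : ∀ t, 0 ≤ t → G 0 ≤ G t := by
    intro t ht
    have h1 := hsup _ (hK'.isClosed.frontier_subset (hfr' t))
    rw [hin0, hin1] at h1
    have h2 := hGpos t
    rw [hG0, div_le_iff₀ hρ]
    have h3 : (1 + κ * t) / G t ≤ ρ := by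
      calc (1 + κ * t) / G t = 1 / G t + κ * (1 / G t * t) := by ring
        _ ≤ ρ := h1
    rw [div_le_iff₀ h2] at h3
    nlinarith [mul_nonneg hκ ht]
  have hcond : ∀ t, 0 < t → 1 / γ t - 1 / G t ≤ q - ρ := by
    intro t ht
    by_cases hneg : 1 / γ t - 1 / G t ≤ 0
    · linarith
    push Not at hneg
    set N : ℝ := ‖e0 + t • e1‖ with hN
    have hNpos : 0 < N := norm_pos_iff.2 (hne t)
    have hN2 : N ^ 2 = 1 + t ^ 2 := by
      have := norm_frame h00 h11 h01 1 t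
      rw [one_smul] at this
      rw [hN, this]; ring
    have hN1 : 1 ≤ N := by nlinarith
    have h1 := hrad (N⁻¹ • (e0 + t • e1)) (by
      rw [norm_smul, norm_inv, Real.norm_eq_abs, abs_of_pos hNpos, ← hN,
        inv_mul_cancel₀ hNpos.ne'])
    rw [gauge_smul_of_nonneg (by positivity), gauge_smul_of_nonneg (by positivity)] at h1
    have h2 : 1 / (N⁻¹ • gauge K (e0 + t • e1)) - 1 / (N⁻¹ • gauge K' (e0 + t • e1)) =
        N * (1 / γ t - 1 / G t) := by
      simp only [hγ, hG, smul_eq_mul]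
      have := (hγpos t).ne'
      have := (hGpos t).ne'
      field_simp
    rw [h2] at h1
    nlinarith
  obtain ⟨D, hD0, hDG, hev⟩ := real_comparison G γ ρ q hρ hq hGconv hGc hγc hGpos hγpos hG0 hγ0
    hmono0 hcond
  -- choose `t`
  have hev2 : ∀ᶠ t in 𝓝[>] (0 : ℝ), t * gauge K' e1 < G 0 := by
    have h1 : Tendsto (fun t : ℝ => t * gauge K' e1) (𝓝[>] 0) (𝓝 (0 * gauge K' e1)) :=
      (tendsto_id.mono_left nhdsWithin_le_nhds).mul_const _
    refine h1.eventually (gt_mem_nhds ?_)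
    rw [zero_mul]; exact hGpos 0
  obtain ⟨t, ⟨ht1, ht2⟩, ht0⟩ := ((hev.and hev2).and self_mem_nhdsWithin).exists
  have ht0 : 0 < t := ht0
  refine ⟨t, ht0, ?_⟩
  -- monotonicity of the frame coordinates
  have hGmono : ∀ a b, 0 ≤ a → a ≤ b → G a ≤ G b := by
    intro a b ha hab
    rcases ha.eq_or_lt with rfl | ha
    · exact hmono0 b hab
    rcases hab.eq_or_lt with rfl | hab
    · exact le_rfl
    have h1 := hGconv.secant_mono_aux1 (x := 0) (y := a) (z := b) trivial trivial ha hab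
    have h2 := hmono0 b (ha.le.trans hab.le)
    have h3 : b * G a ≤ b * G b := by nlinarith
    exact le_of_mul_le_mul_left h3 (ha.trans hab)
  set L : ℝ → ℝ := fun τ => (1 + D * τ) / G τ with hL
  set M : ℝ → ℝ := fun τ => (τ - D) / G τ with hM
  have hLanti : ∀ a b, 0 ≤ a → a ≤ b → L b ≤ L a := by
    intro a b ha hab
    simp only [hL]
    rw [div_le_div_iff₀ (hGpos b) (hGpos a)]
    rcases hab.eq_or_lt with rfl | hab
    · exact le_rfl
    rcases ha.eq_or_lt with rfl | ha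
    · have := hDG b hab.le
      nlinarith
    have hb : 0 < b := ha.trans hab
    have h1 := hGconv.secant_mono_aux1 (x := 0) (y := a) (z := b) trivial trivial ha hab
    simp only [sub_zero] at h1
    have h2 := hDG b hb.le
    have h3 : 0 < 1 + D * b := by positivity
    have h4 : b * ((1 + D * b) * G a) ≤ b * ((1 + D * a) * G b) := by
      calc b * ((1 + D * b) * G a) = (1 + D * b) * (b * G a) := by ring
        _ ≤ (1 + D * b) * ((b - a) * G 0 + a * G b) := mul_le_mul_of_nonneg_left h1 h3.le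
        _ = (b - a) * (G 0 * (1 + D * b)) + a * (1 + D * b) * G b := by ring
        _ ≤ (b - a) * G b + a * (1 + D * b) * G b := by
            have := mul_le_mul_of_nonneg_left h2 (sub_nonneg.2 hab.le)
            linarith
        _ = b * ((1 + D * a) * G b) := by ring
    exact le_of_mul_le_mul_left h4 hb
  have hMmono : ∀ a b, 0 ≤ a → a ≤ b → b ≤ t → M a ≤ M b := by
    intro a b ha hab hbt
    simp only [hM]
    rw [div_le_div_iff₀ (hGpos a) (hGpos b)]
    have h1 : G b ≤ G a + (b - a) * gauge K' e1 := by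
      have h2 : e0 + b • e1 = (e0 + a • e1) + (b - a) • e1 := by module
      simp only [hG]
      rw [h2]
      refine (gauge_add_le hc' (absorbent_nhds_zero h0') _ _).trans ?_
      rw [gauge_smul_of_nonneg (sub_nonneg.2 hab)]
      simp [smul_eq_mul]
    have h2 := hGmono a b ha hab
    have h3 : a * gauge K' e1 ≤ G a := by
      have h4 : a * gauge K' e1 ≤ t * gauge K' e1 :=
        mul_le_mul_of_nonneg_right (hab.trans hbt) (gauge_nonneg _)
      have h5 := hGmono 0 a le_rfl ha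
      linarith
    have h4 := mul_le_mul_of_nonneg_left h1 ha
    have h5 := mul_nonneg (sub_nonneg.2 hab) (sub_nonneg.2 h3)
    have h6 := mul_nonneg hD0 (sub_nonneg.2 h2)
    nlinarith
  have hR : 0 < Real.sqrt (1 + D ^ 2) := Real.sqrt_pos.2 (by positivity)
  have hR2 : Real.sqrt (1 + D ^ 2) ^ 2 = 1 + D ^ 2 := Real.sq_sqrt (by positivity)
  set Ψ : ℝ → Plane := fun τ => (1 / G τ) • (e0 + τ • e1) with hΨ
  set n : ℝ → ℝ := fun τ => (M τ - L τ) / Real.sqrt (1 + D ^ 2) with hn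
  have hnmono : ∀ a b, 0 ≤ a → a ≤ b → b ≤ t → n a ≤ n b := by
    intro a b ha hab hbt
    simp only [hn]
    apply div_le_div_of_nonneg_right _ hR.le
    have := hLanti a b ha hab
    have := hMmono a b ha hab hbt
    linarith
  have hdist : ∀ a b, 0 ≤ a → a ≤ b → b ≤ t → dist (Ψ a) (Ψ b) ≤ n b - n a := by
    intro a b ha hab hbt
    have hL' := hLanti a b ha hab
    have hM' := hMmono a b ha hab hbt
    have hz : Ψ a - Ψ b = (1 / G a - 1 / G b) • e0 + (a / G a - b / G b) • e1 := by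
      simp only [hΨ]
      rw [smul_add, smul_add, smul_smul, smul_smul]
      rw [show a / G a - b / G b = 1 / G a * a - 1 / G b * b by ring]
      module
    have h1 : dist (Ψ a) (Ψ b) ^ 2 = (1 / G a - 1 / G b) ^ 2 + (a / G a - b / G b) ^ 2 := by
      rw [dist_eq_norm, hz, norm_frame h00 h11 h01]
    have h2 : n b - n a = ((M b - M a) + (L a - L b)) / Real.sqrt (1 + D ^ 2) := by
      simp only [hn]; ring
    have h3 : dist (Ψ a) (Ψ b) ^ 2 ≤ (n b - n a) ^ 2 := by
      rw [h1, h2, div_pow, hR2, le_div_iff₀ (by positivity)]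
      have hLd : L a - L b = (1 / G a - 1 / G b) + D * (a / G a - b / G b) := by
        simp only [hL]; ring
      have hMd : M b - M a = -(a / G a - b / G b) + D * (1 / G a - 1 / G b) := by
        simp only [hM]; ring
      have h4 : ((1 / G a - 1 / G b) ^ 2 + (a / G a - b / G b) ^ 2) * (1 + D ^ 2) =
          (M b - M a) ^ 2 + (L a - L b) ^ 2 := by
        rw [hLd, hMd]; ring
      rw [h4]
      nlinarith [mul_nonneg (sub_nonneg.2 hM') (sub_nonneg.2 hL')]
    exact le_of_sq_le_sq h3 (sub_nonneg.2 (hnmono a b ha hab hbt))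
  have hupper : μH[1] (frontier K' ∩ sector e0 e1 t) ≤ ENNReal.ofReal (n t - n 0) := by
    have hsub : frontier K' ∩ sector e0 e1 t ⊆ Ψ '' Ioo 0 t := by
      rintro x ⟨hx, hx1, hx2⟩
      have hu : 0 < (⟪e0, x⟫ : ℝ) := by
        have : 0 < t * ⟪e0, x⟫ := hx1.trans hx2
        exact (mul_pos_iff_of_pos_left ht0).1 this
      refine ⟨⟪e1, x⟫ / ⟪e0, x⟫, ⟨div_pos hx1 hu, by rwa [div_lt_iff₀ hu]⟩, ?_⟩
      have h1 : x = (⟪e0, x⟫ : ℝ) • (e0 + (⟪e1, x⟫ / ⟪e0, x⟫ : ℝ) • e1) := by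
        conv_lhs => rw [hsp x]
        rw [smul_add, smul_smul, mul_div_cancel₀ _ hu.ne']
      have h2 : (⟪e0, x⟫ : ℝ) * G (⟪e1, x⟫ / ⟪e0, x⟫) = 1 := by
        rw [← (gauge_eq_one_iff_mem_frontier hc' h0').2 hx]
        conv_rhs => rw [h1]
        rw [gauge_smul_of_nonneg hu.le, smul_eq_mul]
      have h3 : (1 : ℝ) / G (⟪e1, x⟫ / ⟪e0, x⟫) = ⟪e0, x⟫ := by
        have h4 := hGpos (⟪e1, x⟫ / ⟪e0, x⟫)
        rw [div_eq_iff h4.ne']
        exact h2.symm
      simp only [hΨ]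
      rw [h3]; exact h1.symm
    refine (measure_mono hsub).trans ?_
    refine chain_upper (Ioo 0 t) Ψ n (n 0) (n t) ?_ ?_
    · intro a ha b hb
      rcases le_total a b with hab | hab
      · refine (hdist a b ha.1.le hab hb.2.le).trans ?_
        rw [abs_sub_comm]; exact le_abs_self _
      · rw [dist_comm]
        refine (hdist b a hb.1.le hab ha.2.le).trans (le_abs_self _)
    · intro a ha
      exact ⟨hnmono 0 a le_rfl ha.1.le ha.2.le, hnmono a t ha.1.le ha.2.le le_rfl⟩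
  set Φ : ℝ → Plane := fun τ => (1 / γ τ) • (e0 + τ • e1) with hΦ
  have hΦc : Continuous Φ := by
    simp only [hΦ]
    exact (continuous_const.div hγc fun τ => (hγpos τ).ne').smul hline
  have hlower : ENNReal.ofReal (dist (Φ t) (Φ 0)) ≤ μH[1] (frontier K ∩ sector e0 e1 t) := by
    refine (arc_lower Φ t ht0 hΦc.continuousOn).trans (measure_mono ?_)
    rintro _ ⟨τ, hτ, rfl⟩
    refine ⟨hfr τ, ?_, ?_⟩
    · simp only [hΦ]
      rw [hin1]
      have := hγpos τ
      have := hτ.1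
      positivity
    · simp only [hΦ]
      rw [hin1, hin0, mul_comm]
      have h1 : 0 < 1 / γ τ := by have := hγpos τ; positivity
      exact mul_lt_mul_of_pos_right hτ.2 h1
  have hdΦ : dist (Φ t) (Φ 0) = Real.sqrt ((t / γ t) ^ 2 + (q - 1 / γ t) ^ 2) := by
    have hz : Φ t - Φ 0 = (1 / γ t - q) • e0 + (t / γ t) • e1 := by
      simp only [hΦ]
      rw [hγ0, smul_add, smul_add, smul_smul, smul_smul]
      simp only [one_div_one_div, mul_zero, zero_smul, add_zero]
      rw [show t / γ t = 1 / γ t * t by ring]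
      module
    rw [dist_eq_norm, ← Real.sqrt_sq (norm_nonneg _), hz, norm_frame h00 h11 h01]
    congr 1
    ring
  refine hupper.trans_lt (lt_of_lt_of_le ?_ hlower)
  have hfin : n t - n 0 < dist (Φ t) (Φ 0) := by
    rw [hdΦ]
    have h1 : n t - n 0 =
        (((t - D) / G t + D / G 0) + (1 / G 0 - (1 + D * t) / G t)) / Real.sqrt (1 + D ^ 2) := by
      simp only [hn, hL, hM]; ring
    rw [h1]
    exact ht1
  rw [ENNReal.ofReal_lt_ofReal_iff]
  · exact hfin
  · have := hnmono 0 t le_rfl ht0.le le_rfl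
    linarith

/-- rotation by a right angle -/
def rot (w : Plane) : Plane := !₂[-(w 1), w 0]

lemma inner_eq (x y : Plane) : (⟪x, y⟫ : ℝ) = x 0 * y 0 + x 1 * y 1 := by
  simp [PiLp.inner_apply, Fin.sum_univ_two]
  ring

lemma rot_orth (w : Plane) : (⟪w, rot w⟫ : ℝ) = 0 := by
  rw [inner_eq]; simp [rot]; ring

lemma rot_norm (w : Plane) : (⟪rot w, rot w⟫ : ℝ) = ⟪w, w⟫ := by
  rw [inner_eq, inner_eq]; simp [rot]; ring

lemma rot_span (w x : Plane) :
    (⟪w, w⟫ : ℝ) • x = (⟪w, x⟫ : ℝ) • w + (⟪rot w, x⟫ : ℝ) • rot w := by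
  rw [inner_eq, inner_eq, inner_eq]
  ext i
  fin_cases i
  · simp [rot]; ring
  · simp [rot]; ring

lemma circle_finite : μH[1] (sphere (0 : Plane) 1) < ∞ := by
  set c : ℝ → Plane := fun θ => !₂[Real.cos θ, Real.sin θ] with hc
  have hlip : LipschitzWith 2 c := by
    refine LipschitzWith.of_dist_le_mul fun a b => ?_
    rw [EuclideanSpace.dist_eq]
    have h1 : dist (Real.cos a) (Real.cos b) ≤ |a - b| := by
      have := Real.lipschitzWith_cos.dist_le_mul a b
      simpa [Real.dist_eq] using this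
    have h2 : dist (Real.sin a) (Real.sin b) ≤ |a - b| := by
      have := Real.lipschitzWith_sin.dist_le_mul a b
      simpa [Real.dist_eq] using this
    apply Real.sqrt_le_iff.2
    constructor
    · positivity
    · simp only [hc, Fin.sum_univ_two]
      simp only [Matrix.cons_val_zero, Matrix.cons_val_one, Real.dist_eq a b, NNReal.coe_ofNat]
      have h3 := pow_le_pow_left₀ dist_nonneg h1 2
      have h4 := pow_le_pow_left₀ dist_nonneg h2 2
      nlinarith [abs_nonneg (a - b)]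
  have hsub : sphere (0 : Plane) 1 ⊆ c '' Icc (-Real.pi) Real.pi := by
    intro x hx
    have hx1 : x 0 ^ 2 + x 1 ^ 2 = 1 := by
      have h2 : ‖x‖ = 1 := by simpa using hx
      have h3 : ‖x‖ ^ 2 = 1 := by rw [h2]; norm_num
      rw [EuclideanSpace.norm_sq_eq] at h3
      simpa [Fin.sum_univ_two, sq_abs] using h3
    set z : ℂ := ⟨x 0, x 1⟩ with hz
    have hnz : ‖z‖ = 1 := by
      rw [Complex.norm_def, Complex.normSq_mk]
      rw [show x 0 * x 0 + x 1 * x 1 = 1 by nlinarith]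
      exact Real.sqrt_one
    have hz0 : z ≠ 0 := by
      intro h; rw [h, norm_zero] at hnz; norm_num at hnz
    refine ⟨Complex.arg z, ⟨(Complex.neg_pi_lt_arg z).le, Complex.arg_le_pi z⟩, ?_⟩
    simp only [hc]
    rw [Complex.cos_arg hz0, Complex.sin_arg, hnz]
    ext i
    fin_cases i <;> simp [hz]
  calc μH[1] (sphere (0 : Plane) 1) ≤ μH[1] (c '' Icc (-Real.pi) Real.pi) := measure_mono hsub
    _ ≤ (2 : ℝ≥0) ^ (1 : ℝ) * μH[1] (Icc (-Real.pi) Real.pi) :=
        hlip.hausdorffMeasure_image_le zero_le_one _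
    _ < ∞ := by
        rw [hausdorffMeasure_real, Real.volume_Icc]
        simp only [ENNReal.rpow_one]
        exact ENNReal.mul_lt_top ENNReal.coe_lt_top ENNReal.ofReal_lt_top

lemma frontier_finite {K : Set Plane} (hK : IsCompact K) (hc : Convex ℝ K)
    (h0 : K ∈ 𝓝 (0 : Plane)) : μH[1] (frontier K) < ∞ := by
  obtain ⟨C, hC⟩ := hc.lipschitz_gauge h0
  obtain ⟨r0, hr0pos, hr0⟩ : ∃ r0 : ℝ, 0 < r0 ∧ K ⊆ closedBall 0 r0 := by
    obtain ⟨r, hr⟩ := hK.isBounded.subset_closedBall (0 : Plane)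
    exact ⟨max r 1, by positivity, hr.trans (closedBall_subset_closedBall (le_max_left _ _))⟩
  set R : Plane → Plane := fun x => (gauge K x)⁻¹ • x with hR
  have hg : ∀ x ∈ sphere (0 : Plane) 1, 0 < gauge K x ∧ (gauge K x)⁻¹ ≤ r0 := by
    intro x hx
    have hx1 : ‖x‖ = 1 := by simpa using hx
    have hx0 : x ≠ 0 := by intro h; rw [h, norm_zero] at hx1; norm_num at hx1
    have h1 := gauge_pos' hK h0 hx0
    have h2 := le_gauge_of_subset_closedBall (absorbent_nhds_zero h0) hr0pos.le hr0 (x := x)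
    rw [hx1] at h2
    refine ⟨h1, ?_⟩
    rw [inv_le_comm₀ h1 hr0pos]
    simpa using h2
  have hlip : LipschitzOnWith (Real.toNNReal (r0 + r0 ^ 2 * C)) R (sphere (0 : Plane) 1) := by
    refine LipschitzOnWith.of_dist_le_mul fun x hx y hy => ?_
    obtain ⟨hgx, hgx'⟩ := hg x hx
    obtain ⟨hgy, hgy'⟩ := hg y hy
    have hy1 : ‖y‖ = 1 := by simpa using hy
    rw [Real.coe_toNNReal _ (by positivity)]
    have h1 : R x - R y = (gauge K x)⁻¹ • (x - y) + ((gauge K x)⁻¹ - (gauge K y)⁻¹) • y := by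
      simp only [hR]; module
    rw [dist_eq_norm, h1]
    refine (norm_add_le _ _).trans ?_
    rw [norm_smul, norm_smul, hy1, mul_one, Real.norm_eq_abs, Real.norm_eq_abs,
      abs_of_pos (inv_pos.2 hgx)]
    have h2 : |(gauge K x)⁻¹ - (gauge K y)⁻¹| ≤ r0 ^ 2 * C * dist x y := by
      rw [inv_sub_inv hgx.ne' hgy.ne', abs_div, abs_of_pos (mul_pos hgx hgy), div_eq_mul_inv,
        mul_inv]
      have h3 : |gauge K y - gauge K x| ≤ C * dist x y := by
        have := hC.dist_le_mul y x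
        rwa [Real.dist_eq, dist_comm] at this
      calc |gauge K y - gauge K x| * ((gauge K x)⁻¹ * (gauge K y)⁻¹)
          ≤ (C * dist x y) * (r0 * r0) := by
            apply mul_le_mul h3 _ (by positivity) (by positivity)
            exact mul_le_mul hgx' hgy' (by positivity) (by positivity)
        _ = r0 ^ 2 * C * dist x y := by ring
    rw [← dist_eq_norm]
    have h4 : (gauge K x)⁻¹ * dist x y ≤ r0 * dist x y :=
      mul_le_mul_of_nonneg_right hgx' dist_nonneg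
    linarith
  have hsub : frontier K ⊆ R '' sphere (0 : Plane) 1 := by
    intro x hx
    have h1 : gauge K x = 1 := (gauge_eq_one_iff_mem_frontier hc h0).2 hx
    have hx0 : x ≠ 0 := by intro h; rw [h, gauge_zero] at h1; norm_num at h1
    have hn : 0 < ‖x‖ := norm_pos_iff.2 hx0
    refine ⟨‖x‖⁻¹ • x, ?_, ?_⟩
    · simp [norm_smul, inv_mul_cancel₀ hn.ne']
    · simp only [hR]
      rw [gauge_smul_of_nonneg (by positivity), h1, smul_smul]
      simp [hn.ne']
  calc μH[1] (frontier K) ≤ μH[1] (R '' sphere (0 : Plane) 1) := measure_mono hsub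
    _ ≤ (Real.toNNReal (r0 + r0 ^ 2 * C) : ℝ≥0) ^ (1 : ℝ) * μH[1] (sphere (0 : Plane) 1) :=
        hlip.hausdorffMeasure_image_le zero_le_one
    _ < ∞ := by
        simp only [ENNReal.rpow_one]
        exact ENNReal.mul_lt_top ENNReal.coe_lt_top circle_finite

lemma zero_interior {K : Set Plane} (hK : IsCompact K) (hc : Convex ℝ K)
    (hi : (interior K).Nonempty)
    (h : ∀ n : Plane, n ≠ 0 → μH[1] (frontier K ∩ {x | 0 < (⟪n, x⟫ : ℝ)}) =
      μH[1] (frontier K ∩ {x | (⟪n, x⟫ : ℝ) < 0})) : (0 : Plane) ∈ interior K := by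
  by_contra hcon
  obtain ⟨f, hf⟩ := geometric_hahn_banach_open_point hc.interior isOpen_interior hcon
  rw [map_zero] at hf
  set w : Plane := (InnerProductSpace.toDual ℝ _).symm f with hw
  have hfw : ∀ x, f x = ⟪w, x⟫ := fun x => by
    rw [hw, InnerProductSpace.toDual_symm_apply]
  simp only [hfw] at hf
  obtain ⟨y0, hy0⟩ := hi
  have hy0neg := hf y0 hy0
  have hw0 : w ≠ 0 := by
    rintro h0; rw [h0, inner_zero_left] at hy0neg; exact lt_irrefl _ hy0neg
  have hwn : 0 < ‖w‖ := norm_pos_iff.2 hw0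
  have hww : (⟪w, w⟫ : ℝ) = ‖w‖ ^ 2 := real_inner_self_eq_norm_sq w
  have hle : ∀ x ∈ K, (⟪w, x⟫ : ℝ) ≤ 0 := by
    intro y hy
    have hyc : y ∈ closure (interior K) := by
      rw [hc.closure_interior_eq_closure_of_nonempty_interior ⟨y0, hy0⟩]
      exact subset_closure hy
    have hcl2 : IsClosed {y : Plane | (⟪w, y⟫ : ℝ) ≤ 0} :=
      isClosed_le (continuous_const.inner continuous_id) continuous_const
    exact (closure_minimal (fun z hz => (hf z hz).le) hcl2) hyc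
  have hemp : frontier K ∩ {x | 0 < (⟪w, x⟫ : ℝ)} = ∅ := by
    rw [Set.eq_empty_iff_forall_notMem]
    rintro x ⟨hx, hx'⟩
    have h1 := hle x (hK.isClosed.frontier_subset hx)
    have hx'' : 0 < (⟪w, x⟫ : ℝ) := hx'
    linarith
  have hzero := h w hw0
  rw [hemp, measure_empty] at hzero
  obtain ⟨δ, hδ, hball⟩ := Metric.isOpen_iff.1 isOpen_interior y0 hy0
  have hrn : ‖rot w‖ = ‖w‖ := by
    have h1 := rot_norm w
    rw [real_inner_self_eq_norm_sq, real_inner_self_eq_norm_sq] at h1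
    have := abs_eq_abs.2 (sq_eq_sq_iff_eq_or_eq_neg.1 h1)
    simpa using this
  set φ : Plane → ℝ := fun x => ⟪rot w, x⟫ with hφ
  have hlip : LipschitzWith ‖w‖₊ φ := by
    refine LipschitzWith.of_dist_le_mul fun x y => ?_
    rw [Real.dist_eq, hφ]
    simp only
    rw [← inner_sub_right, dist_eq_norm]
    have := abs_real_inner_le_norm (rot w) (x - y)
    rw [hrn] at this
    simpa using this
  have hsub : Ioo (⟪rot w, y0⟫ : ℝ) (⟪rot w, y0⟫ + δ * ‖w‖) ⊆
      φ '' (frontier K ∩ {x | (⟪w, x⟫ : ℝ) < 0}) := by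
    intro a ha
    set s : ℝ := (a - ⟪rot w, y0⟫) / ‖w‖ ^ 2 with hs
    have hs0 : 0 < s := div_pos (by linarith [ha.1]) (by positivity)
    have hsw : s * ‖w‖ < δ := by
      rw [hs, div_mul_eq_mul_div, div_lt_iff₀ (by positivity)]
      have h1 := ha.2
      have h2 : (a - ⟪rot w, y0⟫) * ‖w‖ < δ * ‖w‖ * ‖w‖ :=
        mul_lt_mul_of_pos_right (by linarith) hwn
      calc (a - ⟪rot w, y0⟫) * ‖w‖ < δ * ‖w‖ * ‖w‖ := h2
        _ = δ * ‖w‖ ^ 2 := by ring
    set y := y0 + s • rot w with hy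
    have hyint : y ∈ interior K := by
      apply hball
      rw [mem_ball, dist_eq_norm, hy, add_sub_cancel_left, norm_smul, Real.norm_eq_abs,
        abs_of_pos hs0, hrn]
      exact hsw
    have hyneg := hf y hyint
    -- the ray
    set T : Set ℝ := {l | 0 ≤ l ∧ y - l • w ∈ K} with hT
    have hcont : Continuous fun l : ℝ => y - l • w := by fun_prop
    have hTc : IsClosed T := by
      apply IsClosed.inter isClosed_Ici
      exact hK.isClosed.preimage hcont
    obtain ⟨r, hr⟩ := hK.isBounded.subset_closedBall y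
    have hTb : T ⊆ Icc 0 (r / ‖w‖) := by
      rintro l ⟨hl0, hl⟩
      refine ⟨hl0, ?_⟩
      have h1 := hr hl
      rw [mem_closedBall, dist_eq_norm, sub_sub_cancel_left, norm_neg, norm_smul,
        Real.norm_eq_abs, abs_of_nonneg hl0] at h1
      rwa [le_div_iff₀ hwn]
    have hTcomp : IsCompact T := isCompact_Icc.of_isClosed_subset hTc hTb
    obtain ⟨l, ⟨hl0, hlK⟩, hlmax⟩ := hTcomp.exists_isMaxOn
      ⟨0, le_rfl, by simpa using interior_subset hyint⟩ continuousOn_id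
    have hlfr : y - l • w ∈ frontier K := by
      rw [hK.isClosed.frontier_eq]
      refine ⟨hlK, fun hint => ?_⟩
      have hev : ∀ᶠ l' in 𝓝 l, y - l' • w ∈ interior K :=
        hcont.continuousAt.eventually (isOpen_interior.mem_nhds hint)
      have hev2 : ∀ᶠ l' in 𝓝[>] l, y - l' • w ∈ interior K := hev.filter_mono nhdsWithin_le_nhds
      obtain ⟨l', hl', hgt⟩ := (hev2.and self_mem_nhdsWithin).exists
      have hgt : l < l' := hgt
      have h1 : l' ≤ l := hlmax ⟨(hl0.trans hgt.le), interior_subset hl'⟩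
      linarith
    refine ⟨y - l • w, ⟨hlfr, ?_⟩, ?_⟩
    · change (⟪w, y - l • w⟫ : ℝ) < 0
      rw [inner_sub_right, inner_smul_right, hww]
      have : 0 ≤ l * ‖w‖ ^ 2 := by positivity
      linarith
    · simp only [hφ]
      rw [inner_sub_right, inner_smul_right, hy, inner_add_right, inner_smul_right, rot_norm, hww,
        real_inner_comm w (rot w), rot_orth, hs]
      field_simp
      ring
  have hpos : 0 < volume (φ '' (frontier K ∩ {x | (⟪w, x⟫ : ℝ) < 0})) := by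
    refine lt_of_lt_of_le ?_ (measure_mono hsub)
    rw [Real.volume_Ioo, ENNReal.ofReal_pos]
    have : 0 < δ * ‖w‖ := by positivity
    linarith
  have hle2 := hlip.hausdorffMeasure_image_le (d := 1) zero_le_one
    (frontier K ∩ {x | (⟪w, x⟫ : ℝ) < 0})
  rw [← hzero, mul_zero, hausdorffMeasure_real] at hle2
  exact absurd hpos (not_lt.2 hle2)


lemma neg_eq_image (K : Set Plane) : -K = (fun x : Plane => -x) '' K := by
  ext x; simp

lemma frontier_neg' (K : Set Plane) : frontier (-K) = -frontier K := by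
  rw [neg_eq_image, neg_eq_image]
  exact ((Homeomorph.neg Plane).image_frontier K).symm

lemma gauge_neg' (K : Set Plane) (x : Plane) : gauge (-K) x = gauge K (-x) := by
  rw [gauge_neg_set_eq_gauge_neg]

lemma hausdorff_neg (S : Set Plane) : μH[1] (-S) = μH[1] S := by
  rw [neg_eq_image]
  exact (IsometryEquiv.neg Plane).isometry.hausdorffMeasure_image (Or.inl zero_le_one) S

/-- A line through an interior point meets the boundary in a null set. -/
lemma line_null {K : Set Plane} (hK : IsCompact K) (hc : Convex ℝ K) (h0 : K ∈ 𝓝 (0 : Plane))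
    (n : Plane) (hn : n ≠ 0) : μH[1] (frontier K ∩ {x | (⟪n, x⟫ : ℝ) = 0}) = 0 := by
  have hnn : (⟪n, n⟫ : ℝ) ≠ 0 := by
    rw [real_inner_self_eq_norm_sq]
    have := norm_pos_iff.2 hn
    positivity
  have hr0 : rot n ≠ 0 := by
    intro h
    have h1 := rot_norm n
    rw [h, inner_zero_left] at h1
    exact hnn h1.symm
  have hfin : (frontier K ∩ {x | (⟪n, x⟫ : ℝ) = 0}) ⊆
      {(gauge K (rot n))⁻¹ • rot n, (gauge K (-rot n))⁻¹ • (-rot n)} := by
    rintro x ⟨hx, hx0⟩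
    have hx0 : (⟪n, x⟫ : ℝ) = 0 := hx0
    have hgx : gauge K x = 1 := (gauge_eq_one_iff_mem_frontier hc h0).2 hx
    have h1 := rot_span n x
    rw [hx0, zero_smul, zero_add] at h1
    set a : ℝ := ⟪rot n, x⟫ / ⟪n, n⟫ with ha
    have h2 : x = a • rot n := by
      have : x = (⟪n, n⟫ : ℝ)⁻¹ • ((⟪n, n⟫ : ℝ) • x) := by
        rw [smul_smul, inv_mul_cancel₀ hnn, one_smul]
      rw [this, h1, smul_smul, ha, div_eq_inv_mul]
    have hxne : x ≠ 0 := by
      intro h; rw [h, gauge_zero] at hgx; norm_num at hgx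
    rcases lt_trichotomy a 0 with h3 | h3 | h3
    · right
      have h4 : x = (-a) • (-rot n) := by rw [h2]; simp
      have h5 : gauge K x = (-a) * gauge K (-rot n) := by
        conv_lhs => rw [h4]
        rw [gauge_smul_of_nonneg (by linarith)]; rfl
      have h6 := gauge_pos' hK h0 (neg_ne_zero.2 hr0)
      rw [mem_singleton_iff]
      rw [hgx] at h5
      have h7 : -a = (gauge K (-rot n))⁻¹ := eq_inv_of_mul_eq_one_left h5.symm
      rw [← h7]; exact h4
    · rw [h3, zero_smul] at h2; exact absurd h2 hxne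
    · left
      have h5 : gauge K x = a * gauge K (rot n) := by
        conv_lhs => rw [h2]
        rw [gauge_smul_of_nonneg h3.le]; rfl
      rw [hgx] at h5
      have h7 : a = (gauge K (rot n))⁻¹ := eq_inv_of_mul_eq_one_left h5.symm
      rw [← h7]; exact h2
  refine measure_mono_null hfin ?_
  have hcount : (({(gauge K (rot n))⁻¹ • rot n, (gauge K (-rot n))⁻¹ • (-rot n)} :
      Set Plane)).Countable := (Set.toFinite _).countable
  have : NullSingletonClass (μH[1] : Measure Plane) := nullSingletonClass_hausdorff Plane zero_lt_one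
  exact hcount.measure_zero _

/-- Splitting the length of `A` by a line. -/
lemma split_null {A : Set Plane} (n : Plane) (hA : μH[1] (A ∩ {x | (⟪n, x⟫ : ℝ) = 0}) = 0) :
    μH[1] A = μH[1] (A ∩ {x | 0 < (⟪n, x⟫ : ℝ)}) + μH[1] (A ∩ {x | (⟪n, x⟫ : ℝ) < 0}) := by
  have hcn : Continuous fun x : Plane => (⟪n, x⟫ : ℝ) := continuous_const.inner continuous_id
  have m1 : MeasurableSet {x : Plane | 0 < (⟪n, x⟫ : ℝ)} :=
    (isOpen_lt continuous_const hcn).measurableSet
  have h1 := measure_inter_add_sdiff (μ := (μH[1] : Measure Plane)) A m1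
  rw [← h1]
  congr 1
  apply le_antisymm
  · have hsub : A \ {x : Plane | 0 < (⟪n, x⟫ : ℝ)} ⊆
        (A ∩ {x | (⟪n, x⟫ : ℝ) < 0}) ∪ (A ∩ {x | (⟪n, x⟫ : ℝ) = 0}) := by
      rintro x ⟨hxA, hx⟩
      have hx' : (⟪n, x⟫ : ℝ) ≤ 0 := not_lt.1 hx
      rcases lt_or_eq_of_le hx' with h | h
      · exact Or.inl ⟨hxA, h⟩
      · exact Or.inr ⟨hxA, h⟩
    calc μH[1] (A \ {x : Plane | 0 < (⟪n, x⟫ : ℝ)})
        ≤ μH[1] ((A ∩ {x | (⟪n, x⟫ : ℝ) < 0}) ∪ (A ∩ {x | (⟪n, x⟫ : ℝ) = 0})) :=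
          measure_mono hsub
      _ ≤ μH[1] (A ∩ {x | (⟪n, x⟫ : ℝ) < 0}) + μH[1] (A ∩ {x | (⟪n, x⟫ : ℝ) = 0}) :=
          measure_union_le _ _
      _ = μH[1] (A ∩ {x | (⟪n, x⟫ : ℝ) < 0}) := by rw [hA, add_zero]
  · apply measure_mono
    rintro x ⟨hxA, hx⟩
    have hx : (⟪n, x⟫ : ℝ) < 0 := hx
    exact ⟨hxA, fun h => by
      have h : 0 < (⟪n, x⟫ : ℝ) := h
      linarith⟩

/-- opposite sectors have equal lengths -/
lemma opposite {K : Set Plane} (hK : IsCompact K) (hc : Convex ℝ K) (h0 : K ∈ 𝓝 (0 : Plane))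
    (h : ∀ n : Plane, n ≠ 0 → μH[1] (frontier K ∩ {x | 0 < (⟪n, x⟫ : ℝ)}) =
      μH[1] (frontier K ∩ {x | (⟪n, x⟫ : ℝ) < 0})) (n p : Plane) (hn : n ≠ 0) (hp : p ≠ 0) :
    μH[1] (frontier K ∩ {x | 0 < (⟪n, x⟫ : ℝ)} ∩ {x | 0 < (⟪p, x⟫ : ℝ)}) =
      μH[1] (frontier K ∩ {x | (⟪n, x⟫ : ℝ) < 0} ∩ {x | (⟪p, x⟫ : ℝ) < 0}) := by
  have hfin := frontier_finite hK hc h0
  have hp0 := line_null hK hc h0 p hp
  have hn0 := line_null hK hc h0 n hn
  have hsub : ∀ S T : Set Plane, μH[1] (frontier K ∩ S ∩ T) ≠ ∞ := fun S T =>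
    ((measure_mono (inter_subset_left.trans inter_subset_left)).trans_lt hfin).ne
  have e1 := split_null (A := frontier K ∩ {x | 0 < (⟪n, x⟫ : ℝ)}) p (measure_mono_null
    (by rintro x ⟨⟨h1, -⟩, h2⟩; exact ⟨h1, h2⟩) hp0)
  have e2 := split_null (A := frontier K ∩ {x | (⟪n, x⟫ : ℝ) < 0}) p (measure_mono_null
    (by rintro x ⟨⟨h1, -⟩, h2⟩; exact ⟨h1, h2⟩) hp0)
  have e3 := split_null (A := frontier K ∩ {x | 0 < (⟪p, x⟫ : ℝ)}) n (measure_mono_null
    (by rintro x ⟨⟨h1, -⟩, h2⟩; exact ⟨h1, h2⟩) hn0)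
  have e4 := split_null (A := frontier K ∩ {x | (⟪p, x⟫ : ℝ) < 0}) n (measure_mono_null
    (by rintro x ⟨⟨h1, -⟩, h2⟩; exact ⟨h1, h2⟩) hn0)
  have k1 := h n hn
  have k2 := h p hp
  rw [e1, e2] at k1
  rw [e3, e4] at k2
  rw [inter_right_comm (frontier K) {x | 0 < (⟪p, x⟫ : ℝ)} {x | 0 < (⟪n, x⟫ : ℝ)},
    inter_right_comm (frontier K) {x | 0 < (⟪p, x⟫ : ℝ)} {x | (⟪n, x⟫ : ℝ) < 0},
    inter_right_comm (frontier K) {x | (⟪p, x⟫ : ℝ) < 0} {x | 0 < (⟪n, x⟫ : ℝ)},
    inter_right_comm (frontier K) {x | (⟪p, x⟫ : ℝ) < 0} {x | (⟪n, x⟫ : ℝ) < 0}] at k2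
  set s := μH[1] (frontier K ∩ {x | 0 < (⟪n, x⟫ : ℝ)} ∩ {x | 0 < (⟪p, x⟫ : ℝ)}) with hs
  set u := μH[1] (frontier K ∩ {x | 0 < (⟪n, x⟫ : ℝ)} ∩ {x | (⟪p, x⟫ : ℝ) < 0}) with hu
  set v := μH[1] (frontier K ∩ {x | (⟪n, x⟫ : ℝ) < 0} ∩ {x | 0 < (⟪p, x⟫ : ℝ)}) with hv
  set w := μH[1] (frontier K ∩ {x | (⟪n, x⟫ : ℝ) < 0} ∩ {x | (⟪p, x⟫ : ℝ) < 0}) with hw
  have fs : s ≠ ∞ := hsub _ _
  have fu : u ≠ ∞ := hsub _ _
  have fv : v ≠ ∞ := hsub _ _
  have fw : w ≠ ∞ := hsub _ _
  lift s to ℝ≥0 using fs with s' hs'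
  lift u to ℝ≥0 using fu with u' hu'
  lift v to ℝ≥0 using fv with v' hv'
  lift w to ℝ≥0 using fw with w' hw'
  norm_cast at k1 k2 ⊢
  have k1' : (s' : ℝ) + u' = v' + w' := by exact_mod_cast k1
  have k2' : (s' : ℝ) + v' = u' + w' := by exact_mod_cast k2
  have : (s' : ℝ) = w' := by linarith
  exact_mod_cast this

/-- The theorem with the point at the origin. -/
lemma main_zero {K : Set Plane} (hK : IsCompact K) (hc : Convex ℝ K)
    (hi : (interior K).Nonempty)
    (h : ∀ n : Plane, n ≠ 0 → μH[1] (frontier K ∩ {x | 0 < (⟪n, x⟫ : ℝ)}) =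
      μH[1] (frontier K ∩ {x | (⟪n, x⟫ : ℝ) < 0})) (x : Plane) : gauge K x = gauge K (-x) := by
  have h0i := zero_interior hK hc hi h
  have h0 : K ∈ 𝓝 (0 : Plane) := mem_interior_iff_mem_nhds.1 h0i
  by_contra hne
  have hx0 : x ≠ 0 := by rintro rfl; simp at hne
  have hnegK : (-K : Set Plane) ∈ 𝓝 (0 : Plane) := by
    have := (Homeomorph.neg Plane).continuous.continuousAt.preimage_mem_nhds
      (x := (0 : Plane)) (t := K) (by simpa using h0)
    simpa using this
  have hK' : IsCompact (-K) := hK.neg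
  have hc' : Convex ℝ (-K) := hc.neg
  set b : Plane → ℝ := fun e => 1 / gauge K e - 1 / gauge (-K) e with hb
  have hbc : ContinuousOn b (sphere (0 : Plane) 1) := by
    have hne0 : ∀ e ∈ sphere (0 : Plane) 1, e ≠ 0 := by
      intro e he h
      rw [h] at he
      simp at he
    apply ContinuousOn.sub
    · exact continuousOn_const.div (continuous_gauge hc h0).continuousOn
        (fun e he => (gauge_pos' hK h0 (hne0 e he)).ne')
    · exact continuousOn_const.div (continuous_gauge hc' hnegK).continuousOn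
        (fun e he => (gauge_pos' hK' hnegK (hne0 e he)).ne')
  have hnx : 0 < ‖x‖ := norm_pos_iff.2 hx0
  have hxs : ‖x‖⁻¹ • x ∈ sphere (0 : Plane) 1 := by
    simp [norm_smul, inv_mul_cancel₀ hnx.ne']
  obtain ⟨e0, he0, hmax⟩ := (isCompact_sphere (0 : Plane) 1).exists_isMaxOn ⟨_, hxs⟩ hbc
  have hbodd : ∀ e, b (-e) = - b e := by
    intro e
    simp only [hb, gauge_neg', neg_neg]
    ring
  have hbx : b (‖x‖⁻¹ • x) ≠ 0 := by
    simp only [hb, gauge_neg']
    rw [← smul_neg, gauge_smul_of_nonneg (by positivity), gauge_smul_of_nonneg (by positivity)]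
    intro h1
    have h2 := gauge_pos' hK h0 hx0
    have h3 := gauge_pos' hK h0 (neg_ne_zero.2 hx0)
    have h4 : 1 / (‖x‖⁻¹ • gauge K x) = 1 / (‖x‖⁻¹ • gauge K (-x)) := by linarith
    rw [one_div, one_div, inv_inj, smul_eq_mul, smul_eq_mul] at h4
    exact hne (mul_left_cancel₀ (by positivity) h4)
  have hbpos : 0 < b e0 := by
    rcases lt_or_gt_of_ne hbx with h1 | h1
    · have h2 : b (-(‖x‖⁻¹ • x)) ≤ b e0 := hmax (by
        rw [mem_sphere_zero_iff_norm, norm_neg]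
        simpa using hxs)
      rw [hbodd] at h2
      linarith
    · exact h1.trans_le (hmax hxs)
  have he0n : ‖e0‖ = 1 := by simpa using he0
  have he00 : (⟪e0, e0⟫ : ℝ) = 1 := by rw [real_inner_self_eq_norm_sq, he0n]; norm_num
  have he0ne : e0 ≠ 0 := by intro h; rw [h, norm_zero] at he0n; norm_num at he0n
  set q : ℝ := 1 / gauge K e0 with hq
  set ρ : ℝ := 1 / gauge (-K) e0 with hρ
  have hρ0 : 0 < ρ := one_div_pos.2 (gauge_pos' hK' hnegK he0ne)
  have hqρ : ρ < q := by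
    have : b e0 = q - ρ := rfl
    linarith
  -- support line at ρ e0 for -K
  have hρfr : ρ • e0 ∈ frontier (-K) := by
    rw [← gauge_eq_one_iff_mem_frontier hc' hnegK, gauge_smul_of_nonneg hρ0.le, smul_eq_mul, hρ]
    exact one_div_mul_cancel (gauge_pos' hK' hnegK he0ne).ne'
  obtain ⟨f, hf⟩ : ∃ f : StrongDual ℝ Plane, ∀ a ∈ interior (-K), f a < f (ρ • e0) :=
    geometric_hahn_banach_open_point hc'.interior isOpen_interior
      (fun hin => hρfr.2 hin)
  set w : Plane := (InnerProductSpace.toDual ℝ _).symm f with hw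
  have hfw : ∀ x, f x = ⟪w, x⟫ := fun x => by
    rw [hw, InnerProductSpace.toDual_symm_apply]
  simp only [hfw] at hf
  have h0i' : (0 : Plane) ∈ interior (-K) := mem_interior_iff_mem_nhds.2 hnegK
  have hwe : 0 < (⟪w, e0⟫ : ℝ) := by
    have h1 := hf 0 h0i'
    rw [inner_zero_right, inner_smul_right] at h1
    exact (mul_pos_iff_of_pos_left hρ0).1 h1
  have hle : ∀ y ∈ -K, (⟪w, y⟫ : ℝ) ≤ ρ * ⟪w, e0⟫ := by
    intro y hy
    have hyc : y ∈ closure (interior (-K)) := by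
      rw [hc'.closure_interior_eq_closure_of_nonempty_interior ⟨0, h0i'⟩]
      exact subset_closure hy
    have hcl2 : IsClosed {y : Plane | (⟪w, y⟫ : ℝ) ≤ ρ * ⟪w, e0⟫} :=
      isClosed_le (continuous_const.inner continuous_id) continuous_const
    refine (closure_minimal (fun z hz => ?_) hcl2) hyc
    have := (hf z hz).le
    rw [inner_smul_right] at this
    exact this
  -- choose the sign
  obtain ⟨e1, κ, h11, h01, hsp, hκ, hsup⟩ : ∃ (e1 : Plane) (κ : ℝ), (⟪e1, e1⟫ : ℝ) = 1 ∧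
      (⟪e0, e1⟫ : ℝ) = 0 ∧ (∀ x : Plane, x = (⟪e0, x⟫ : ℝ) • e0 + (⟪e1, x⟫ : ℝ) • e1) ∧ 0 ≤ κ ∧
      (∀ x ∈ -K, (⟪e0, x⟫ : ℝ) + κ * ⟪e1, x⟫ ≤ ρ) := by
    have hspan : ∀ x : Plane, x = (⟪e0, x⟫ : ℝ) • e0 + (⟪rot e0, x⟫ : ℝ) • rot e0 := by
      intro x
      have := rot_span e0 x
      rwa [he00, one_smul] at this
    have hr11 : (⟪rot e0, rot e0⟫ : ℝ) = 1 := by rw [rot_norm, he00]
    have hr01 := rot_orth e0
    have hin : ∀ y : Plane, (⟪w, y⟫ : ℝ) = ⟪w, e0⟫ * ⟪e0, y⟫ + ⟪w, rot e0⟫ * ⟪rot e0, y⟫ := by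
      intro y
      conv_lhs => rw [hspan y]
      rw [inner_add_right, inner_smul_right, inner_smul_right]
      ring
    by_cases hs : 0 ≤ (⟪w, rot e0⟫ : ℝ)
    · refine ⟨rot e0, ⟪w, rot e0⟫ / ⟪w, e0⟫, hr11, hr01, hspan, div_nonneg hs hwe.le, ?_⟩
      intro y hy
      have h1 := hle y hy
      rw [hin y] at h1
      have h2 : (⟪e0, y⟫ + ⟪w, rot e0⟫ / ⟪w, e0⟫ * ⟪rot e0, y⟫ : ℝ) =
        (⟪w, e0⟫ * ⟪e0, y⟫ + ⟪w, rot e0⟫ * ⟪rot e0, y⟫) / ⟪w, e0⟫ := by
        field_simp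
      rw [h2, div_le_iff₀ hwe]
      exact h1
    · push Not at hs
      refine ⟨-rot e0, -⟪w, rot e0⟫ / ⟪w, e0⟫, ?_, ?_, ?_, ?_, ?_⟩
      · rw [inner_neg_neg, hr11]
      · rw [inner_neg_right, hr01, neg_zero]
      · intro y
        rw [inner_neg_left, smul_neg, neg_smul, neg_neg]
        exact hspan y
      · exact div_nonneg (by linarith) hwe.le
      · intro y hy
        have h1 := hle y hy
        rw [hin y] at h1
        rw [inner_neg_left]
        have h2 : (⟪e0, y⟫ + -⟪w, rot e0⟫ / ⟪w, e0⟫ * -⟪rot e0, y⟫ : ℝ) =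
          (⟪w, e0⟫ * ⟪e0, y⟫ + ⟪w, rot e0⟫ * ⟪rot e0, y⟫) / ⟪w, e0⟫ := by
          field_simp
        rw [h2, div_le_iff₀ hwe]
        exact h1
  obtain ⟨t, ht, hlt⟩ := geo K (-K) hK hK' hc hc' h0 hnegK e0 e1 he00 h11 h01 hsp q ρ κ hρ0 hqρ
    (by rw [hq]; simp) (by rw [hρ]; simp) hκ hsup (by
      intro y hy
      have : b y ≤ b e0 := hmax (by simpa using hy)
      exact this)
  -- the opposite sectors
  have he1ne : e1 ≠ 0 := by
    intro h; rw [h, inner_zero_left] at h11; norm_num at h11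
  have hpne : t • e0 - e1 ≠ 0 := by
    intro hz
    have h1 : (⟪e1, t • e0 - e1⟫ : ℝ) = 0 := by rw [hz, inner_zero_right]
    rw [inner_sub_right, inner_smul_right, real_inner_comm, h01, h11] at h1
    norm_num at h1
  have hop := opposite hK hc h0 h e1 (t • e0 - e1) he1ne hpne
  have hs1 : frontier K ∩ {x | 0 < (⟪e1, x⟫ : ℝ)} ∩ {x | 0 < (⟪t • e0 - e1, x⟫ : ℝ)} =
      frontier K ∩ sector e0 e1 t := by
    ext y
    simp only [sector, Set.mem_inter_iff, Set.mem_ofPred_eq, inner_sub_left, inner_smul_left,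
      conj_trivial, sub_pos, and_assoc]
  have hs2 : frontier K ∩ {x | (⟪e1, x⟫ : ℝ) < 0} ∩ {x | (⟪t • e0 - e1, x⟫ : ℝ) < 0} =
      -(frontier (-K) ∩ sector e0 e1 t) := by
    rw [frontier_neg']
    ext y
    simp only [sector, Set.mem_inter_iff, Set.mem_neg, Set.mem_ofPred_eq, inner_sub_left,
      inner_smul_left, conj_trivial, neg_neg, inner_neg_right, and_assoc]
    refine and_congr_right fun _ => ?_
    constructor
    · rintro ⟨h1, h2⟩
      constructor <;> linarith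
    · rintro ⟨h1, h2⟩
      constructor <;> linarith
  rw [hs1, hs2, hausdorff_neg] at hop
  rw [hop] at hlt
  exact lt_irrefl _ hlt

/-- Length of a subset of the plane: the one-dimensional Hausdorff measure. -/
noncomputable def length (A : Set Plane) : ℝ≥0∞ := μH[1] A

/-- The line through `O` with normal vector `n` bisects the perimeter of `K`: the parts of the
boundary of `K` in the two open half-planes have equal lengths. -/
def BisectsPerimeter (K : Set Plane) (O n : Plane) : Prop :=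
  length (frontier K ∩ {x | 0 < (⟪n, x - O⟫ : ℝ)}) =
    length (frontier K ∩ {x | (⟪n, x - O⟫ : ℝ) < 0})

/-- Klamkin's question on perimeter-bisecting points: if every line through `O` bisects the
perimeter of the convex closed curve `∂K`, then `∂K` is centrally symmetric about `O`. -/
theorem result (K : Set Plane) (hK : IsCompact K) (hc : Convex ℝ K) (hi : (interior K).Nonempty)
    (O : Plane) (h : ∀ n : Plane, n ≠ 0 → BisectsPerimeter K O n) :
    (fun x : Plane => (2 : ℝ) • O - x) '' frontier K = frontier K := by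
  -- translate
  set L : Set Plane := (fun x => x - O) '' K with hL
  set T : Plane ≃ᵢ Plane := IsometryEquiv.subRight O with hT
  have hTK : L = T '' K := rfl
  have hLc : IsCompact L := hK.image (by fun_prop)
  have hLconv : Convex ℝ L := by
    have : L = (fun x => (-O) + x) '' K := by
      rw [hL]; ext y; simp [sub_eq_neg_add]
    rw [this]
    exact hc.translate (-O)
  have hfr : frontier L = T '' frontier K := by
    rw [hTK]
    exact (T.toHomeomorph.image_frontier K).symm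
  have hint : interior L = T '' interior K := by
    rw [hTK]
    exact (T.toHomeomorph.image_interior K).symm
  have hLi : (interior L).Nonempty := by rw [hint]; exact hi.image _
  have hbis : ∀ n : Plane, n ≠ 0 → μH[1] (frontier L ∩ {x | 0 < (⟪n, x⟫ : ℝ)}) =
      μH[1] (frontier L ∩ {x | (⟪n, x⟫ : ℝ) < 0}) := by
    intro n hn
    have h1 := h n hn
    simp only [BisectsPerimeter, length] at h1
    have e1 : frontier L ∩ {x | 0 < (⟪n, x⟫ : ℝ)} =
        T '' (frontier K ∩ {x | 0 < (⟪n, x - O⟫ : ℝ)}) := by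
      rw [hfr]; ext y; constructor
      · rintro ⟨⟨z, hz, rfl⟩, hy⟩
        exact ⟨z, ⟨hz, hy⟩, rfl⟩
      · rintro ⟨z, ⟨hz, hy⟩, rfl⟩
        exact ⟨⟨z, hz, rfl⟩, hy⟩
    have e2 : frontier L ∩ {x | (⟪n, x⟫ : ℝ) < 0} =
        T '' (frontier K ∩ {x | (⟪n, x - O⟫ : ℝ) < 0}) := by
      rw [hfr]; ext y; constructor
      · rintro ⟨⟨z, hz, rfl⟩, hy⟩
        exact ⟨z, ⟨hz, hy⟩, rfl⟩
      · rintro ⟨z, ⟨hz, hy⟩, rfl⟩
        exact ⟨⟨z, hz, rfl⟩, hy⟩
    rw [e1, e2, T.isometry.hausdorffMeasure_image (Or.inl zero_le_one),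
      T.isometry.hausdorffMeasure_image (Or.inl zero_le_one), h1]
  have h0i := zero_interior hLc hLconv hLi hbis
  have h0 : L ∈ 𝓝 (0 : Plane) := mem_interior_iff_mem_nhds.1 h0i
  have key : ∀ y, y ∈ frontier L → -y ∈ frontier L := by
    intro y hy
    rw [← gauge_eq_one_iff_mem_frontier hLconv h0] at hy ⊢
    rw [← main_zero hLc hLconv hLi hbis y]
    exact hy
  have key2 : ∀ x, x ∈ frontier K → (2 : ℝ) • O - x ∈ frontier K := by
    intro x hx
    have h1 : x - O ∈ frontier L := by rw [hfr]; exact ⟨x, hx, rfl⟩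
    have h2 := key _ h1
    rw [hfr] at h2
    obtain ⟨z, hz, hz'⟩ := h2
    have hz'' : z - O = -(x - O) := hz'
    have : (2 : ℝ) • O - x = z := by
      have : z = -(x - O) + O := by rw [← hz'']; abel
      rw [this, two_smul]; abel
    rw [this]; exact hz
  apply Subset.antisymm
  · rintro _ ⟨x, hx, rfl⟩
    exact key2 x hx
  · intro x hx
    exact ⟨(2 : ℝ) • O - x, key2 x hx, by simp⟩

end Pool.Agent.Results.MP_7f2f72_gt.Klamkin
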